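import Pool.Agent.Lib.SmN.G.CT

/-!
# SMITH block G, module Crit: the Cassels-Tate criterion, levels of Selmer cocycles
-/

set_option autoImplicit false

namespace Pool.Agent.SmN

variable {G V V1 Pl : Type*} [Group G] [AddCommGroup V] [DistribMulAction G V]
  [AddCommGroup V1] [Module (ZMod 2) V1]

namespace Sys

variable {S : Sys G V V1 Pl}

theorem IsSel.cocD {chi : G → ZMod 2} {j : ℕ} {Psi : G → V} (hP : S.IsSel chi j Psi) (v : Pl) :
    S.CocD chi v Psi := ⟨hP.tf.on _, fun s _ t _ => hP.coc s t⟩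

/-- The criterion: `Psi` is twice a Selmer cocycle iff the Cassels-Tate pairing with all 2-Selmer
elements vanishes. -/
theorem ct_crit (h : S.Ok) {chi : G → ZMod 2} (hchi : S.HomG chi) {j : ℕ} {Psi : G → V}
    (hP : S.IsSel chi j Psi) :
    (∃ Phi, S.IsSel chi (j + 1) Phi ∧ ∀ s, (2 : ℕ) • Phi s = Psi s) ↔
      ∀ b, S.IsSel1 chi b → S.CT chi Psi b = 0 := by
  constructor
  · rintro ⟨Phi, hPhi, h2⟩ b hb
    exact CT_of_two h hchi hPhi h2 hb
  · intro hb
    obtain ⟨hat, Q, hd⟩ := exists_liftData h hchi hP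
    have hexc := exc_fin h hchi
    have hxi : {v | S.xi chi hat Q v ∉ S.W chi v}.Finite := by
      refine (hexc.union (hd.fin h hchi)).subset fun v hv => ?_
      by_cases hg : ∀ x : V1 × V1, x ∈ S.W chi v ↔ x.1 = 0
      · exact Or.inr fun h0 => hv ((hg _).mpr h0)
      · exact Or.inl hg
    obtain ⟨om, hom, hloc⟩ := h.dual (S.W chi) (fun v => Wl_sub_CP h hchi v)
      (fun v z => cob_mem_Wl h chi v z) (card_W h hchi)
      (fun v x hx y hy => h.isot chi hchi v x hx y hy) hexc (S.xi chi hat Q)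
      (fun v => hd.xi_CP h hchi v) hxi
      (fun b hb1 hb2 => by rw [← CT_eq h hchi hd ⟨hb1, hb2⟩]; exact hb b ⟨hb1, hb2⟩)
    refine ⟨fun s => hat s - S.iota (om s), ⟨?_, ?_, ?_, ?_⟩, ?_⟩
    · exact TF.comp₂ h hd.tf hom.1 (fun x y => x - S.iota y)
    · intro s t
      simp only [hd.coc s t, hom.2 s t, map_add, tw_sub, tw_iota h]
      abel
    · intro s
      rw [pow_succ, mul_smul, smul_sub, two_iota, sub_zero, hd.two, hP.lev]
    · intro v
      obtain ⟨R, hR, h1, h2⟩ := hloc v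
      refine ⟨Q v + R, cocD_ext h hchi v ?_ (dl_cocD h hchi _ v) ?_ ?_⟩
      · refine ⟨(TF.comp₂ h hd.tf hom.1 (fun x y => x - S.iota y)).on _, fun s _ t _ => ?_⟩
        simp only [hd.coc s t, hom.2 s t, map_add, tw_sub, tw_iota h]
        abel
      · rw [dl_add, h1, Prod.fst_sub, map_sub, hd.iota_xi1 h]
        change hat (S.sg v) - S.iota (om (S.sg v)) = _ + (S.iota (om (S.sg v)) - _)
        have e : S.iota (om (S.sg v)) = -S.iota (om (S.sg v)) := (neg_iota S _).symm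
        have e2 : hat (S.sg v) - dl chi (Q v) (S.sg v) =
            -(hat (S.sg v) - dl chi (Q v) (S.sg v)) := (neg_of_two (hd.two_sub v (h.sg_mem v))).symm
        rw [e2]
        nth_rewrite 2 [e]
        abel
      · rw [dl_add, h2, Prod.snd_sub, map_sub, hd.iota_xi2 h]
        change hat (S.phi v) - S.iota (om (S.phi v)) = _ + (S.iota (om (S.phi v)) - _)
        have e : S.iota (om (S.phi v)) = -S.iota (om (S.phi v)) := (neg_iota S _).symm
        have e2 : hat (S.phi v) - dl chi (Q v) (S.phi v) =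
            -(hat (S.phi v) - dl chi (Q v) (S.phi v)) :=
          (neg_of_two (hd.two_sub v (h.phi_mem v))).symm
        rw [e2]
        nth_rewrite 2 [e]
        abel
    · intro s
      rw [smul_sub, two_iota, sub_zero, hd.two]

/-! ### the 2-Selmer group as level 1 -/

theorem isSel_iota (h : S.Ok) {chi : G → ZMod 2} (hchi : S.HomG chi) {b : G → V1}
    (hb : S.IsSel1 chi b) : S.IsSel chi 1 (fun s => S.iota (b s)) := by
  have hcoc : ∀ s t, S.iota (b (s * t)) = S.iota (b s) + tw chi s (S.iota (b t)) := fun s t => by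
    rw [tw_iota h, hb.1.2, map_add]
  refine ⟨hb.1.1.comp _, hcoc, fun s => ?_, fun v => ?_⟩
  · rw [pow_one]; exact two_iota S _
  · exact zv_of_Wl h hchi ⟨(hb.1.1.comp _).on _, fun s _ t _ => hcoc s t⟩ (hb.2 v) rfl rfl

theorem isSel1_of (h : S.Ok) {chi : G → ZMod 2} {b : G → V1}
    (hb : S.IsSel chi 1 (fun s => S.iota (b s))) : S.IsSel1 chi b := by
  have hH : S.CocG b := by
    refine ⟨?_, fun s t => h.iota_inj ?_⟩
    · obtain ⟨N, hN, h1⟩ := hb.tf
      exact ⟨N, hN, fun s n hn => h.iota_inj (h1 s n hn)⟩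
    · rw [map_add]
      have := hb.coc s t
      rwa [tw_iota h] at this
  refine ⟨hH, fun v => ?_⟩
  obtain ⟨Q, hQ⟩ := hb.loc v
  refine ⟨Q, fun s hs => ?_, (hQ _ (h.sg_mem v)).symm, (hQ _ (h.phi_mem v)).symm⟩
  rw [← hQ s hs]; exact two_iota S _

theorem isSel1_iff (h : S.Ok) {chi : G → ZMod 2} (hchi : S.HomG chi) {b : G → V1} :
    S.IsSel1 chi b ↔ S.IsSel chi 1 (fun s => S.iota (b s)) :=
  ⟨isSel_iota h hchi, isSel1_of h⟩

theorem isSel_un (h : S.Ok) {chi : G → ZMod 2} {Psi : G → V} (hP : S.IsSel chi 1 Psi) :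
    S.IsSel1 chi (fun s => S.un (Psi s)) := by
  have : (fun s => S.iota (S.un (Psi s))) = Psi := funext fun s =>
    iota_un h (by have := hP.lev s; rwa [pow_one] at this)
  exact isSel1_of h (by rw [this]; exact hP)

/-! ### levels -/

theorem IsSel.mono {chi : G → ZMod 2} {j k : ℕ} (hjk : j ≤ k) {Psi : G → V}
    (hP : S.IsSel chi j Psi) : S.IsSel chi k Psi :=
  ⟨hP.tf, hP.coc, fun s => by
    obtain ⟨i, rfl⟩ := Nat.exists_eq_add_of_le hjk
    rw [pow_add, mul_comm, mul_smul, hP.lev, smul_zero], hP.loc⟩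

theorem IsSel.of_lev {chi : G → ZMod 2} {j k : ℕ} {Psi : G → V} (hP : S.IsSel chi k Psi)
    (hj : ∀ s, (2 : ℕ) ^ j • Psi s = 0) : S.IsSel chi j Psi := ⟨hP.tf, hP.coc, hj, hP.loc⟩

theorem IsSel.add (h : S.Ok) {chi : G → ZMod 2} {j : ℕ} {Psi Phi : G → V}
    (hP : S.IsSel chi j Psi) (hF : S.IsSel chi j Phi) : S.IsSel chi j (Psi + Phi) where
  tf := TF.comp₂ h hP.tf hF.tf (fun a b => a + b)
  coc := fun s t => by simp only [Pi.add_apply, hP.coc s t, hF.coc s t, tw_add]; abel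
  lev := fun s => by rw [Pi.add_apply, smul_add, hP.lev, hF.lev, add_zero]
  loc := fun v => (hP.loc v).add (hF.loc v)

theorem IsSel.neg {chi : G → ZMod 2} {j : ℕ} {Psi : G → V}
    (hP : S.IsSel chi j Psi) : S.IsSel chi j (-Psi) where
  tf := hP.tf.comp (fun a => -a)
  coc := fun s t => by simp only [Pi.neg_apply, hP.coc s t, tw_neg]; abel
  lev := fun s => by rw [Pi.neg_apply, smul_neg, hP.lev, neg_zero]
  loc := fun v => by
    obtain ⟨Q, hQ⟩ := hP.loc v
    exact ⟨-Q, fun s hs => by rw [Pi.neg_apply, hQ s hs, dl_neg]⟩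

theorem IsSel.zero (h : S.Ok) (chi : G → ZMod 2) (j : ℕ) : S.IsSel chi j (0 : G → V) where
  tf := TF_const h 0
  coc := fun s t => by simp [tw_zero]
  lev := fun s => by simp
  loc := fun v => ⟨0, fun s _ => by rw [dl_zero]; rfl⟩

/-- The Selmer cocycles of level `j` as a group. -/
def SelZ (S : Sys G V V1 Pl) (h : S.Ok) (chi : G → ZMod 2) (j : ℕ) : AddSubgroup (G → V) where
  carrier := {Psi | S.IsSel chi j Psi}
  zero_mem' := IsSel.zero h chi j
  add_mem' := fun hP hF => hP.add h hF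
  neg_mem' := fun hP => hP.neg

theorem mem_SelZ {h : S.Ok} {chi : G → ZMod 2} {j : ℕ} {Psi : G → V} :
    Psi ∈ S.SelZ h chi j ↔ S.IsSel chi j Psi := Iff.rfl

/-- The 2-Selmer group. -/
def Sel1 (S : Sys G V V1 Pl) (h : S.Ok) (chi : G → ZMod 2) : AddSubgroup (G → V1) where
  carrier := {b | S.IsSel1 chi b}
  zero_mem' := IsSel1.zero h chi
  add_mem' := fun hP hF => hP.add h hF
  neg_mem' := fun {b} hP => by
    have : -b = b := funext fun s => V1_neg _
    rw [this]; exact hP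

theorem mem_Sel1 {h : S.Ok} {chi : G → ZMod 2} {b : G → V1} :
    b ∈ S.Sel1 h chi ↔ S.IsSel1 chi b := Iff.rfl

theorem isSel_zero_iff {chi : G → ZMod 2} {Psi : G → V} (hP : S.IsSel chi 0 Psi) : Psi = 0 :=
  funext fun s => by have := hP.lev s; rwa [pow_zero, one_smul] at this

/-- Doubling lowers the level. -/
theorem IsSel.two {chi : G → ZMod 2} {j : ℕ} {Psi : G → V} (hP : S.IsSel chi (j + 1) Psi) :
    S.IsSel chi j ((2 : ℕ) • Psi) where
  tf := hP.tf.comp (fun a => (2 : ℕ) • a)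
  coc := fun s t => by simp only [Pi.smul_apply, hP.coc s t, smul_add, tw_nsmul]
  lev := fun s => by rw [Pi.smul_apply, smul_smul, ← pow_succ, hP.lev]
  loc := fun v => (hP.loc v).nsmul 2

end Sys

end Pool.Agent.SmN
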