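import Pool.Agent.Lib.SmN.G.Crit

/-!
# SMITH block G, module TowerFacts: the Selmer cocycles of all levels form a tower
-/

set_option autoImplicit false

namespace Pool.Agent.SmN

variable {G V V1 Pl : Type*} [Group G] [AddCommGroup V] [DistribMulAction G V]
  [AddCommGroup V1] [Module (ZMod 2) V1]

namespace Sys

variable {S : Sys G V V1 Pl}

/-- All coboundaries `dl chi z`. -/
def Cob (chi : G → ZMod 2) : AddSubgroup (G → V) where
  carrier := {Psi | ∃ z : V, Psi = dl chi z}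
  zero_mem' := ⟨0, funext fun s => (dl_zero chi s).symm⟩
  add_mem' := by
    rintro _ _ ⟨z, rfl⟩ ⟨y, rfl⟩
    exact ⟨z + y, funext fun s => (dl_add chi z y s).symm⟩
  neg_mem' := by
    rintro _ ⟨z, rfl⟩
    exact ⟨-z, funext fun s => (dl_neg chi z s).symm⟩

theorem mem_Cob {chi : G → ZMod 2} {Psi : G → V} :
    Psi ∈ Cob (V := V) chi ↔ ∃ z : V, Psi = dl chi z := Iff.rfl

/-- The pairing on functions with values in `V`. -/
noncomputable def PV (S : Sys G V V1 Pl) (chi : G → ZMod 2) (m b : G → V) : ZMod 2 :=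
  S.CT chi m (fun s => S.un (b s))

theorem SelZ_zero (h : S.Ok) (chi : G → ZMod 2) : S.SelZ h chi 0 = ⊥ := by
  rw [eq_bot_iff]
  intro Psi hP
  exact isSel_zero_iff (mem_SelZ.mp hP)

theorem SelZ_le_succ (h : S.Ok) (chi : G → ZMod 2) (j : ℕ) : S.SelZ h chi j ≤ S.SelZ h chi (j + 1) :=
  fun _ hP => (mem_SelZ.mp hP).mono (Nat.le_succ j)

theorem SelZ_mono (h : S.Ok) (chi : G → ZMod 2) {j k : ℕ} (hjk : j ≤ k) :
    S.SelZ h chi j ≤ S.SelZ h chi k :=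
  fun _ hP => (mem_SelZ.mp hP).mono hjk

theorem SelZ_of_pow (h : S.Ok) (chi : G → ZMod 2) {j k : ℕ} {m : G → V} (hm : m ∈ S.SelZ h chi k)
    (h0 : (2 : ℕ) ^ j • m = 0) : m ∈ S.SelZ h chi j :=
  (mem_SelZ.mp hm).of_lev fun s => congrFun h0 s

theorem SelZ_pow (h : S.Ok) (chi : G → ZMod 2) {j : ℕ} {m : G → V} (hm : m ∈ S.SelZ h chi j) :
    (2 : ℕ) ^ j • m = 0 := funext fun s => (mem_SelZ.mp hm).lev s

theorem SelZ_two (h : S.Ok) (chi : G → ZMod 2) {j : ℕ} {m : G → V}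
    (hm : m ∈ S.SelZ h chi (j + 1)) : (2 : ℕ) • m ∈ S.SelZ h chi j := (mem_SelZ.mp hm).two

theorem PV_add_left (h : S.Ok) {chi : G → ZMod 2} (hchi : S.HomG chi) {j j' : ℕ}
    {m m' b : G → V} (hm : m ∈ S.SelZ h chi j) (hm' : m' ∈ S.SelZ h chi j')
    (hb : b ∈ S.SelZ h chi 1) : S.PV chi (m + m') b = S.PV chi m b + S.PV chi m' b :=
  CT_add_left h hchi hm hm' (isSel_un h hb)

theorem un_comp_add (h : S.Ok) {chi : G → ZMod 2} {b b' : G → V} (hb : b ∈ S.SelZ h chi 1)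
    (hb' : b' ∈ S.SelZ h chi 1) :
    (fun s => S.un ((b + b') s)) = (fun s => S.un (b s)) + (fun s => S.un (b' s)) := by
  funext s
  have e := hb.lev s
  have e' := hb'.lev s
  rw [pow_one] at e e'
  simp only [Pi.add_apply, un_add h e e']

theorem PV_add_right (h : S.Ok) {chi : G → ZMod 2} (hchi : S.HomG chi) {j : ℕ}
    {m b b' : G → V} (hm : m ∈ S.SelZ h chi j) (hb : b ∈ S.SelZ h chi 1)
    (hb' : b' ∈ S.SelZ h chi 1) : S.PV chi m (b + b') = S.PV chi m b + S.PV chi m b' := by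
  rw [PV, un_comp_add h hb hb']
  exact CT_add_right h hchi hm (isSel_un h hb) (isSel_un h hb')

/-- The criterion for the tower. -/
theorem PV_crit (h : S.Ok) {chi : G → ZMod 2} (hchi : S.HomG chi) {j : ℕ} {m : G → V}
    (hm : m ∈ S.SelZ h chi j) :
    (∀ b ∈ S.SelZ h chi 1, S.PV chi m b = 0) ↔ ∃ m' ∈ S.SelZ h chi (j + 1), (2 : ℕ) • m' = m := by
  constructor
  · intro hb
    obtain ⟨Phi, h1, h2⟩ := (ct_crit h hchi hm).mpr (fun b hb1 => by
      have := hb _ (isSel_iota h hchi hb1)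
      rw [PV] at this
      simpa only [un_iota h] using this)
    exact ⟨Phi, h1, funext h2⟩
  · rintro ⟨m', h1, h2⟩ b hb
    exact CT_of_two h hchi h1 (fun s => congrFun h2 s) (isSel_un h hb)

theorem Cob_half (h : S.Ok) {chi : G → ZMod 2} {t : G → V} (ht : t ∈ Cob (V := V) chi) :
    ∃ t' ∈ Cob (V := V) chi, (2 : ℕ) • t' = t := by
  obtain ⟨z, rfl⟩ := ht
  obtain ⟨y, hy⟩ := h.half z
  exact ⟨dl chi y, ⟨y, rfl⟩, funext fun s => by rw [Pi.smul_apply, ← dl_nsmul, hy]⟩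

theorem Cob_SelZ (h : S.Ok) {chi : G → ZMod 2} (hchi : S.HomG chi) {t : G → V}
    (ht : t ∈ Cob (V := V) chi) {j : ℕ} (h0 : (2 : ℕ) ^ j • t = 0) : t ∈ S.SelZ h chi j := by
  obtain ⟨z, rfl⟩ := ht
  exact isSel_dl h hchi fun s => congrFun h0 s

theorem Cob_tors (h : S.Ok) {chi : G → ZMod 2} {t : G → V} (ht : t ∈ Cob (V := V) chi) :
    ∃ j : ℕ, (2 : ℕ) ^ j • t = 0 := by
  obtain ⟨z, rfl⟩ := ht
  obtain ⟨j, hj⟩ := h.tors z
  exact ⟨j, funext fun s => by rw [Pi.smul_apply, ← dl_nsmul, hj, dl_zero]; rfl⟩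

end Sys

end Pool.Agent.SmN
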