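import Pool.Agent.Lib.SmN.G.Gen

/-!
# SMITH block G, module CTDefs: inverse of `iota`, the data of the Cassels-Tate pairing
-/

set_option autoImplicit false

namespace Pool.Agent.SmN

variable {G V V1 Pl : Type*} [Group G] [AddCommGroup V] [DistribMulAction G V]
  [AddCommGroup V1] [Module (ZMod 2) V1]

namespace Sys

/-- The inverse of `iota` on `V[2]`. -/
noncomputable def un (S : Sys G V V1 Pl) (Q : V) : V1 := Function.invFun S.iota Q

/-- Data for the Cassels-Tate pairing of `Psi`: a global lift `hat` of `Psi` under doubling and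
local points `Q v` with `Psi = 2 • dl chi (Q v)` on `D v`. -/
structure LiftData (S : Sys G V V1 Pl) (chi : G → ZMod 2) (Psi hat : G → V) (Q : Pl → V) : Prop where
  tf : S.TF hat
  coc : ∀ s t, hat (s * t) = hat s + tw chi s (hat t)
  two : ∀ s, (2 : ℕ) • hat s = Psi s
  loc : ∀ v, ∀ s ∈ S.D v, Psi s = (2 : ℕ) • dl chi (Q v) s

/-- The local difference `hat - dl (Q v)` as a pair of values in `V1`. -/
noncomputable def xi (S : Sys G V V1 Pl) (chi : G → ZMod 2) (hat : G → V) (Q : Pl → V) (v : Pl) :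
    V1 × V1 :=
  (S.un (hat (S.sg v) - dl chi (Q v) (S.sg v)), S.un (hat (S.phi v) - dl chi (Q v) (S.phi v)))

open Classical in
/-- The Cassels-Tate pairing of a Selmer element `Psi` with a 2-Selmer element `b`. -/
noncomputable def CT (S : Sys G V V1 Pl) (chi : G → ZMod 2) (Psi : G → V) (b : G → V1) : ZMod 2 :=
  if h : ∃ p : (G → V) × (Pl → V), S.LiftData chi Psi p.1 p.2 then
    ∑ᶠ v, S.sy v (S.xi chi h.choose.1 h.choose.2 v) (S.loc v b)
  else 0

variable {S : Sys G V V1 Pl}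

theorem un_iota (h : S.Ok) (w : V1) : S.un (S.iota w) = w :=
  Function.leftInverse_invFun h.iota_inj w

theorem iota_un (h : S.Ok) {Q : V} (hQ : (2 : ℕ) • Q = 0) : S.iota (S.un Q) = Q := by
  obtain ⟨w, rfl⟩ := h.iota_range Q hQ
  rw [un_iota h]

theorem un_zero (h : S.Ok) : S.un 0 = 0 := by
  rw [← map_zero S.iota, un_iota h]

theorem un_add (h : S.Ok) {Q R : V} (hQ : (2 : ℕ) • Q = 0) (hR : (2 : ℕ) • R = 0) :
    S.un (Q + R) = S.un Q + S.un R := by
  apply h.iota_inj
  rw [map_add, iota_un h hQ, iota_un h hR, iota_un h (by rw [smul_add, hQ, hR, add_zero])]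

theorem un_sub (h : S.Ok) {Q R : V} (hQ : (2 : ℕ) • Q = 0) (hR : (2 : ℕ) • R = 0) :
    S.un (Q - R) = S.un Q - S.un R := by
  apply h.iota_inj
  rw [map_sub, iota_un h hQ, iota_un h hR, iota_un h (by rw [smul_sub, hQ, hR, sub_zero])]

theorem un_eq_iff (h : S.Ok) {Q : V} (hQ : (2 : ℕ) • Q = 0) (w : V1) :
    S.un Q = w ↔ Q = S.iota w := by
  constructor
  · rintro rfl; exact (iota_un h hQ).symm
  · rintro rfl; exact un_iota h w

theorem iota_eq_zero (h : S.Ok) {w : V1} : S.iota w = 0 ↔ w = 0 := by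
  rw [← map_zero S.iota]; exact h.iota_inj.eq_iff

/-- An element of `V[2]` is its own negative. -/
theorem neg_of_two {Q : V} (hQ : (2 : ℕ) • Q = 0) : -Q = Q := by
  rw [two_nsmul] at hQ
  exact neg_eq_of_add_eq_zero_left hQ

/-- The twisted action on `V[2]` does not depend on the twist. -/
theorem tw_of_two (h : S.Ok) (chi : G → ZMod 2) (s : G) {Q : V} (hQ : (2 : ℕ) • Q = 0) :
    tw chi s Q = S.iota (S.ac s (S.un Q)) := by
  obtain ⟨w, rfl⟩ := h.iota_range Q hQ
  rw [tw_iota h chi s w, un_iota h]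

theorem un_tw (h : S.Ok) (chi : G → ZMod 2) (s : G) {Q : V} (hQ : (2 : ℕ) • Q = 0) :
    S.un (tw chi s Q) = S.ac s (S.un Q) := by
  rw [tw_of_two h chi s hQ, un_iota h]

theorem two_tw (h : S.Ok) (chi : G → ZMod 2) (s : G) {Q : V} (hQ : (2 : ℕ) • Q = 0) :
    (2 : ℕ) • tw chi s Q = 0 := by
  rw [← tw_nsmul, hQ, tw_zero]

theorem tw_of_two_split (h : S.Ok) (chi : G → ZMod 2) {s : G} (hs : S.ac s = 1) {Q : V}
    (hQ : (2 : ℕ) • Q = 0) : tw chi s Q = Q := by
  rw [tw_of_two h chi s hQ, hs]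
  exact iota_un h hQ

theorem dl_of_two (h : S.Ok) (chi : G → ZMod 2) (s : G) {Q : V} (hQ : (2 : ℕ) • Q = 0) :
    dl chi Q s = S.iota (S.ac s (S.un Q) - S.un Q) := by
  rw [dl, tw_of_two h chi s hQ, map_sub, iota_un h hQ]

theorem dl_of_two_split (h : S.Ok) (chi : G → ZMod 2) {s : G} (hs : S.ac s = 1) {Q : V}
    (hQ : (2 : ℕ) • Q = 0) : dl chi Q s = 0 := by
  rw [dl, tw_of_two_split h chi hs hQ, sub_self]

/-- `sg v` acts trivially on `V1` at a good place. -/
theorem ac_sg (h : S.Ok) {v : Pl} (hv : v ∈ S.good) : S.ac (S.sg v) = 1 := by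
  apply LinearEquiv.ext
  intro w
  apply h.iota_inj
  rw [← h.iota_ac, h.good_triv v hv]
  rfl

/-- The action on `V1` is `NN`-finite. -/
theorem ac_fin (h : S.Ok) : ∃ N ∈ S.NN, ∀ s ∈ N, S.ac s = 1 := by
  obtain ⟨N, hN, h1⟩ := h.act_fin 1
  refine ⟨N, hN, fun s hs => LinearEquiv.ext fun w => h.iota_inj ?_⟩
  rw [← h.iota_ac, h1 s hs _ (by rw [pow_one, two_iota])]
  rfl

/-- At a good place where Frobenius acts trivially on `V1`, all of `D v` acts trivially. -/
theorem ac_D (h : S.Ok) {v : Pl} (hv : v ∈ S.good) (hs : S.ac (S.phi v) = 1) :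
    ∀ s ∈ S.D v, S.ac s = 1 := by
  intro s hsD
  obtain ⟨N, hN, h1⟩ := ac_fin h
  obtain ⟨t, ht, hts⟩ := h.gen v N hN s hsD
  have h2 : ∀ x ∈ Subgroup.closure {S.phi v, S.sg v}, S.ac x = 1 := by
    intro x hx
    have : Subgroup.closure {S.phi v, S.sg v} ≤ S.ac.ker := by
      rw [Subgroup.closure_le]
      rintro y (rfl | rfl)
      · exact hs
      · exact ac_sg h hv
    exact this hx
  have h3 := h1 _ hts
  rw [map_mul, map_inv, h2 t ht, inv_one, one_mul] at h3
  exact h3

/-- A cocycle vanishes at `1`. -/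
theorem cocG_one {b : G → V1} (hb : ∀ s t, b (s * t) = b s + S.ac s (b t)) : b 1 = 0 := by
  have := hb 1 1
  rw [one_mul, map_one] at this
  exact left_eq_add.mp this

/-- Every 2-finite homomorphism is unramified at almost all places. -/
theorem HomG.fin (h : S.Ok) {A : Type*} [AddCommGroup A] {c : G → A} (hc : S.HomG c) :
    {v | c (S.sg v) ≠ 0}.Finite := by
  obtain ⟨N, hN, h1⟩ := hc.1
  refine (h.unr N hN).subset fun v hv hm => hv ?_
  have h0 : c 1 = 0 := by
    have := hc.2 1 1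
    rw [one_mul] at this
    exact left_eq_add.mp this
  have := h1 1 _ hm
  rwa [one_mul, h0] at this

/-- Every global cocycle is unramified at almost all places. -/
theorem CocG.fin (h : S.Ok) {c : G → V1} (hc : S.CocG c) : {v | c (S.sg v) ≠ 0}.Finite := by
  obtain ⟨N, hN, h1⟩ := hc.1
  refine (h.unr N hN).subset fun v hv hm => hv ?_
  have h0 : c 1 = 0 := cocG_one hc.2
  have := h1 1 _ hm
  rwa [one_mul, h0] at this

/-- Every 2-finite twisted cocycle is unramified at almost all places. -/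
theorem coc_fin (h : S.Ok) {chi : G → ZMod 2} (hchi : S.HomG chi) {c : G → V} (ht : S.TF c)
    (hc : ∀ s t, c (s * t) = c s + tw chi s (c t)) : {v | c (S.sg v) ≠ 0}.Finite := by
  obtain ⟨N, hN, h1⟩ := ht
  refine (h.unr N hN).subset fun v hv hm => hv ?_
  have := h1 1 _ hm
  rwa [one_mul, coc_one hchi.2 hc] at this

/-- The places which are not good or where `chi` ramifies form a finite set. -/
theorem bad_fin (h : S.Ok) {chi : G → ZMod 2} (hchi : S.HomG chi) :
    {v | ¬ (v ∈ S.good ∧ chi (S.sg v) = 0)}.Finite := by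
  refine (h.good_fin.union (HomG.fin h hchi)).subset fun v hv => ?_
  by_cases hg : v ∈ S.good
  · exact Or.inr fun h0 => hv ⟨hg, h0⟩
  · exact Or.inl hg

/-- At a good place where the twist is unramified every coboundary is unramified. -/
theorem dl_sg_zero (h : S.Ok) {chi : G → ZMod 2} {v : Pl} (hv : v ∈ S.good)
    (h0 : chi (S.sg v) = 0) (Q : V) : dl chi Q (S.sg v) = 0 := by
  rw [dl, tw_of_zero chi h0, h.good_triv v hv, sub_self]

/-- At a good place where the twist is ramified, `dl Q (sg v) = -2Q`. -/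
theorem dl_sg_one (h : S.Ok) {chi : G → ZMod 2} {v : Pl} (hv : v ∈ S.good)
    (h1 : chi (S.sg v) = 1) (Q : V) : dl chi Q (S.sg v) = -((2 : ℕ) • Q) := by
  rw [dl, tw_of_one chi h1, h.good_triv v hv, two_nsmul]
  abel

/-- G3: at a good place where the twist is ramified, a coboundary which vanishes at `sg v` is the
coboundary of a 2-torsion point. -/
theorem fill_cob (h : S.Ok) {chi : G → ZMod 2} {v : Pl} (hv : v ∈ S.good)
    (h1 : chi (S.sg v) = 1) {Q : V} (hQ : dl chi Q (S.sg v) = 0) : (2 : ℕ) • Q = 0 := by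
  rwa [dl_sg_one h hv h1, neg_eq_zero] at hQ

/-- G3: at a good place where the twist is ramified, a `V[2]`-valued coboundary is determined by
its value at `sg v` (where `V1` has trivial action). -/
theorem fill_zero (h : S.Ok) {chi : G → ZMod 2} {v : Pl} (hv : v ∈ S.good)
    (h1 : chi (S.sg v) = 1) {Q : V} (hQ : dl chi Q (S.sg v) = 0) {s : G} (hs : S.ac s = 1) :
    dl chi Q s = 0 :=
  dl_of_two_split h chi hs (fill_cob h hv h1 hQ)

theorem fill_eq (h : S.Ok) {chi : G → ZMod 2} {v : Pl} (hv : v ∈ S.good)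
    (h1 : chi (S.sg v) = 1) {Q z : V} {w : V1} (hQ : dl chi Q (S.sg v) = S.iota w)
    (hz : (2 : ℕ) • z = S.iota w) {s : G} (hs : S.ac s = 1) : dl chi Q s = dl chi z s := by
  have : dl chi (Q - z) (S.sg v) = 0 := by
    rw [dl_sub, hQ, dl_sg_one h hv h1, hz, neg_iota, sub_self]
  have := fill_zero h hv h1 this hs
  rwa [dl_sub, sub_eq_zero] at this

end Sys

end Pool.Agent.SmN
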