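import Pool.Agent.Lib.SmN.G.Crit

/-!
# SMITH with action (SmN): change of the place above `v`

`S.conj g` replaces the decomposition group `D v` by `g_v (D v) g_v⁻¹` (and `sg v`, `phi v`
accordingly).  `S.Ok → (S.conj g).Ok` for every `g : Pl → G`; Selmer cocycles and the Cassels-Tate
pairing do not change.
-/

set_option autoImplicit false

namespace Pool.Agent.SmN

variable {G V V1 Pl : Type*} [Group G] [AddCommGroup V] [DistribMulAction G V]
  [AddCommGroup V1] [Module (ZMod 2) V1]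

namespace Sys

/-- The action of `s` on pairs. -/
def ac2 (S : Sys G V V1 Pl) (s : G) : V1 × V1 →ₗ[ZMod 2] V1 × V1 :=
  (S.ac s).toLinearMap.prodMap (S.ac s).toLinearMap

/-- Change of the places of `Ω` above the places of `K`. -/
def conj (S : Sys G V V1 Pl) (g : Pl → G) : Sys G V V1 Pl where
  NN := S.NN
  D v := (S.D v).map (MulAut.conj (g v)).toMonoidHom
  phi v := g v * S.phi v * (g v)⁻¹
  sg v := g v * S.sg v * (g v)⁻¹
  eps := S.eps
  iota := S.iota
  ac := S.ac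
  e := S.e
  sy v := (S.sy v).compl₁₂ (S.ac2 (g v)⁻¹) (S.ac2 (g v)⁻¹)
  good := S.good

variable {S : Sys G V V1 Pl} {g : Pl → G}

theorem ac2_apply (s : G) (x : V1 × V1) : S.ac2 s x = (S.ac s x.1, S.ac s x.2) := rfl

theorem ac2_mul (s t : G) (x : V1 × V1) : S.ac2 s (S.ac2 t x) = S.ac2 (s * t) x := by
  simp only [ac2_apply, map_mul]
  rfl

theorem ac2_one (x : V1 × V1) : S.ac2 1 x = x := by
  simp only [ac2_apply, map_one]
  rfl

theorem ac2_inv_mul (s : G) (x : V1 × V1) : S.ac2 s⁻¹ (S.ac2 s x) = x := by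
  rw [ac2_mul, inv_mul_cancel, ac2_one]

theorem ac2_mul_inv (s : G) (x : V1 × V1) : S.ac2 s (S.ac2 s⁻¹ x) = x := by
  rw [ac2_mul, mul_inv_cancel, ac2_one]

theorem conj_sy (v : Pl) (x y : V1 × V1) :
    (S.conj g).sy v x y = S.sy v (S.ac2 (g v)⁻¹ x) (S.ac2 (g v)⁻¹ y) := rfl

theorem mem_conj_D {v : Pl} {s : G} :
    s ∈ (S.conj g).D v ↔ (g v)⁻¹ * s * g v ∈ S.D v := by
  change s ∈ (S.D v).map (MulAut.conj (g v)).toMonoidHom ↔ _
  rw [Subgroup.mem_map]
  constructor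
  · rintro ⟨t, ht, rfl⟩
    have : (g v)⁻¹ * (MulAut.conj (g v)).toMonoidHom t * g v = t := by
      change (g v)⁻¹ * (g v * t * (g v)⁻¹) * g v = t
      group
    rwa [this]
  · intro h
    refine ⟨_, h, ?_⟩
    change g v * ((g v)⁻¹ * s * g v) * (g v)⁻¹ = s
    group

theorem conj_mem_D {v : Pl} {s : G} (hs : s ∈ S.D v) : g v * s * (g v)⁻¹ ∈ (S.conj g).D v := by
  rw [mem_conj_D]
  have : (g v)⁻¹ * (g v * s * (g v)⁻¹) * g v = s := by group
  rwa [this]

/-- Undoing the conjugation. -/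
theorem conj_exists {v : Pl} {s : G} (hs : s ∈ (S.conj g).D v) :
    ∃ t ∈ S.D v, s = g v * t * (g v)⁻¹ :=
  ⟨_, mem_conj_D.1 hs, by group⟩

theorem conj_mul (a s t : G) : a * (s * t) * a⁻¹ = (a * s * a⁻¹) * (a * t * a⁻¹) := by group

/-- The value of a cocycle at a conjugate element. -/
theorem coc_conj {b : G → V1} (hb : ∀ s t, b (s * t) = b s + S.ac s (b t)) (a s : G) :
    b (a * s * a⁻¹) = S.ac a (b s + (S.ac s (S.ac a⁻¹ (b a)) - S.ac a⁻¹ (b a))) := by
  have h1 : b a⁻¹ = S.ac a⁻¹ (b a) := by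
    have h2 := hb a⁻¹ a
    rw [inv_mul_cancel, cocG_one hb] at h2
    have h3 : b a⁻¹ + S.ac a⁻¹ (b a) = 0 := h2.symm
    rw [eq_neg_of_add_eq_zero_left h3, V1_neg]
  have h4 : S.ac a (S.ac a⁻¹ (b a)) = b a := by
    rw [map_inv]
    exact (S.ac a).apply_symm_apply (b a)
  rw [hb, hb, h1, map_add, map_sub, h4, map_mul]
  change b a + S.ac a (b s) + S.ac a (S.ac s (S.ac a⁻¹ (b a))) = _
  rw [sub_eq_add_neg, V1_neg]
  abel

theorem loc_conj {b : G → V1} (hb : S.CocG b) (v : Pl) :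
    (S.conj g).loc v b = S.ac2 (g v) (S.loc v b + S.cob v (S.ac (g v)⁻¹ (b (g v)))) :=
  Prod.ext (coc_conj hb.2 (g v) (S.sg v)) (coc_conj hb.2 (g v) (S.phi v))

theorem conj_loc {b : G → V1} (hb : S.CocG b) (v : Pl) :
    S.ac2 (g v)⁻¹ ((S.conj g).loc v b) = S.loc v b + S.cob v (S.ac (g v)⁻¹ (b (g v))) := by
  rw [loc_conj hb, ac2_inv_mul]

theorem mem_conj_CP (h : S.Ok) {v : Pl} {x : V1 × V1} :
    x ∈ (S.conj g).CP v ↔ S.ac2 (g v)⁻¹ x ∈ S.CP v := by
  constructor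
  · rintro ⟨c, ⟨N, hN, htf⟩, hc, rfl⟩
    refine ⟨fun s => S.ac (g v)⁻¹ (c (g v * s * (g v)⁻¹)), ⟨N, hN, fun s hs n hn hnD => ?_⟩,
      fun s hs t ht => ?_, rfl⟩
    · change S.ac (g v)⁻¹ _ = S.ac (g v)⁻¹ _
      rw [conj_mul, htf _ (conj_mem_D hs) _ ((h.normal N hN).conj_mem n hn _) (conj_mem_D hnD)]
    · change S.ac (g v)⁻¹ _ = S.ac (g v)⁻¹ _ + S.ac s (S.ac (g v)⁻¹ _)
      rw [conj_mul, hc _ (conj_mem_D hs) _ (conj_mem_D ht), map_add]
      congr 1
      change (S.ac (g v)⁻¹ * S.ac (g v * s * (g v)⁻¹)) _ = (S.ac s * S.ac (g v)⁻¹) _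
      rw [← map_mul, ← map_mul]
      congr 2
      group
  · rintro ⟨c, ⟨N, hN, htf⟩, hc, hx⟩
    refine ⟨fun s => S.ac (g v) (c ((g v)⁻¹ * s * g v)), ⟨N, hN, fun s hs n hn hnD => ?_⟩,
      fun s hs t ht => ?_, ?_⟩
    · change S.ac (g v) _ = S.ac (g v) _
      have e : (g v)⁻¹ * (s * n) * g v = ((g v)⁻¹ * s * g v) * ((g v)⁻¹ * n * g v) := by group
      have hn' : (g v)⁻¹ * n * g v ∈ N := by
        simpa using (h.normal N hN).conj_mem n hn (g v)⁻¹
      rw [e, htf _ (mem_conj_D.1 hs) _ hn' (mem_conj_D.1 hnD)]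
    · change S.ac (g v) _ = S.ac (g v) _ + S.ac s (S.ac (g v) _)
      have e : (g v)⁻¹ * (s * t) * g v = ((g v)⁻¹ * s * g v) * ((g v)⁻¹ * t * g v) := by group
      rw [e, hc _ (mem_conj_D.1 hs) _ (mem_conj_D.1 ht), map_add]
      congr 1
      change (S.ac (g v) * S.ac ((g v)⁻¹ * s * g v)) _ = (S.ac s * S.ac (g v)) _
      rw [← map_mul, ← map_mul]
      congr 2
      group
    · rw [← ac2_mul_inv (S := S) (g v) x, ← hx]
      refine Prod.ext ?_ ?_
      · change S.ac (g v) (c ((g v)⁻¹ * (g v * S.sg v * (g v)⁻¹) * g v)) = S.ac (g v) (c (S.sg v))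
        congr 2
        group
      · change S.ac (g v) (c ((g v)⁻¹ * (g v * S.phi v * (g v)⁻¹) * g v)) =
          S.ac (g v) (c (S.phi v))
        congr 2
        group

theorem conj_cob (v : Pl) (z : V1) :
    S.ac2 (g v)⁻¹ ((S.conj g).cob v z) = S.cob v (S.ac (g v)⁻¹ z) := by
  have key : ∀ s : G, S.ac (g v)⁻¹ (S.ac (g v * s * (g v)⁻¹) z - z) =
      S.ac s (S.ac (g v)⁻¹ z) - S.ac (g v)⁻¹ z := by
    intro s
    rw [map_sub]
    congr 1
    change (S.ac (g v)⁻¹ * S.ac (g v * s * (g v)⁻¹)) _ = (S.ac s * S.ac (g v)⁻¹) _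
    rw [← map_mul, ← map_mul]
    congr 2
    group
  exact Prod.ext (key _) (key _)

/-- The twisted coboundary at a conjugate element. -/
theorem dl_conj {chi : G → ZMod 2} (hchi : ∀ s t, chi (s * t) = chi s + chi t) (Q : V) (a s : G) :
    dl chi (tw chi a Q) (a * s * a⁻¹) = tw chi a (dl chi Q s) := by
  simp only [dl, tw_sub]
  congr 1
  rw [← tw_mul hchi, ← tw_mul hchi]
  congr 1
  group

theorem tw_inv_tw {chi : G → ZMod 2} (hchi : ∀ s t, chi (s * t) = chi s + chi t) (Q : V) (a : G) :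
    tw chi a (tw chi a⁻¹ Q) = Q := by
  rw [← tw_mul hchi, mul_inv_cancel, tw_one hchi]

theorem tw_tw_inv {chi : G → ZMod 2} (hchi : ∀ s t, chi (s * t) = chi s + chi t) (Q : V) (a : G) :
    tw chi a⁻¹ (tw chi a Q) = Q := by
  rw [← tw_mul hchi, inv_mul_cancel, tw_one hchi]

theorem mem_conj_Wl (h : S.Ok) {chi : G → ZMod 2} (hchi : S.HomG chi) {v : Pl} {x : V1 × V1} :
    x ∈ (S.conj g).Wl chi v ↔ S.ac2 (g v)⁻¹ x ∈ S.Wl chi v := by
  constructor
  · rintro ⟨Q, hQ, h1, h2⟩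
    have key : ∀ s, dl chi (tw chi (g v)⁻¹ Q) s =
        tw chi (g v)⁻¹ (dl chi Q (g v * s * (g v)⁻¹)) := by
      intro s
      have := dl_conj hchi.2 (tw chi (g v)⁻¹ Q) (g v) s
      rw [tw_inv_tw hchi.2] at this
      rw [this, tw_tw_inv hchi.2]
    refine ⟨tw chi (g v)⁻¹ Q, fun s hs => ?_, ?_, ?_⟩
    · rw [key, ← tw_nsmul, hQ _ (conj_mem_D hs), tw_zero]
    · rw [key]
      change tw chi (g v)⁻¹ (dl chi Q ((S.conj g).sg v)) = _
      rw [h1]
      exact tw_iota h chi _ _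
    · rw [key]
      change tw chi (g v)⁻¹ (dl chi Q ((S.conj g).phi v)) = _
      rw [h2]
      exact tw_iota h chi _ _
  · rintro ⟨Q, hQ, h1, h2⟩
    refine ⟨tw chi (g v) Q, fun s hs => ?_, ?_, ?_⟩
    · obtain ⟨t, ht, rfl⟩ := conj_exists hs
      rw [dl_conj hchi.2, ← tw_nsmul, hQ t ht, tw_zero]
    · change dl chi (tw chi (g v) Q) (g v * S.sg v * (g v)⁻¹) = S.iota x.1
      rw [dl_conj hchi.2, h1, tw_iota h]
      congr 1
      change (S.ac (g v)) (S.ac (g v)⁻¹ x.1) = x.1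
      rw [map_inv]
      exact (S.ac (g v)).apply_symm_apply _
    · change dl chi (tw chi (g v) Q) (g v * S.phi v * (g v)⁻¹) = S.iota x.2
      rw [dl_conj hchi.2, h2, tw_iota h]
      congr 1
      change (S.ac (g v)) (S.ac (g v)⁻¹ x.2) = x.2
      rw [map_inv]
      exact (S.ac (g v)).apply_symm_apply _

/-- The pairing of the pairs of values of global cocycles does not change. -/
theorem conj_sy_loc (h : S.Ok) {c d : G → V1} (hc : S.CocG c) (hd : S.CocG d) (v : Pl) :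
    (S.conj g).sy v ((S.conj g).loc v c) ((S.conj g).loc v d) =
      S.sy v (S.loc v c) (S.loc v d) := by
  rw [conj_sy, conj_loc hc, conj_loc hd, sy_add_left, sy_add_right, sy_add_right,
    sy_cob_left h v (loc_mem_CP hd v), sy_cob_left h v (cob_mem_CP h v _),
    h.sy_cob v _ (loc_mem_CP hc v)]
  simp

theorem conj_sy_right (h : S.Ok) {x : V1 × V1} {v : Pl} (hx : x ∈ S.CP v) {d : G → V1}
    (hd : S.CocG d) :
    (S.conj g).sy v (S.ac2 (g v) x) ((S.conj g).loc v d) = S.sy v x (S.loc v d) := by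
  rw [conj_sy, ac2_inv_mul, conj_loc hd, sy_add_right, h.sy_cob v _ hx, add_zero]

/-- `ac` at a conjugate element. -/
theorem ac_conj_eq_one {a s : G} : S.ac (a * s * a⁻¹) = 1 ↔ S.ac s = 1 := by
  rw [map_mul, map_mul, map_inv]
  constructor
  · intro h
    have := congrArg (fun x => (S.ac a)⁻¹ * x * S.ac a) h
    simpa [mul_assoc] using this
  · intro h
    rw [h, mul_one, mul_inv_cancel]

/-- The conjugate of a 2-cocycle is cohomologous to it. -/
theorem hasse_conj (h : S.Ok) {c : G → G → V1} (hTF : S.TF2 c)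
    (hc : ∀ s t w, c s t + c (s * t) w = S.ac s (c t w) + c s (t * w)) (v : Pl)
    (hl : ∃ b : G → V1, (S.conj g).TFOn ((S.conj g).D v) b ∧
      ∀ s ∈ (S.conj g).D v, ∀ t ∈ (S.conj g).D v, c s t = b s + S.ac s (b t) + b (s * t)) :
    ∃ b : G → V1, S.TFOn (S.D v) b ∧
      ∀ s ∈ S.D v, ∀ t ∈ S.D v, c s t = b s + S.ac s (b t) + b (s * t) := by
  obtain ⟨b, ⟨N, hN, hbN⟩, hb⟩ := hl
  obtain ⟨M, hM, hcM⟩ := hTF
  set a := g v with ha
  set hh : G → V1 := fun s => S.ac a⁻¹ (c (a * s * a⁻¹) a + c a s) with hhh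
  have hh_eq : ∀ s t, S.ac a⁻¹ (c (a * s * a⁻¹) (a * t * a⁻¹)) + c s t =
      hh s + S.ac s (hh t) + hh (s * t) := by
    intro s t
    have e1 := hc (a * s * a⁻¹) (a * t * a⁻¹) a
    have e2 := hc (a * s * a⁻¹) a t
    have e3 := hc a s t
    have f1 : a * t * a⁻¹ * a = a * t := by group
    have f2 : a * s * a⁻¹ * a = a * s := by group
    have f3 : (a * s * a⁻¹) * (a * t * a⁻¹) = a * (s * t) * a⁻¹ := (conj_mul a s t).symm
    rw [f1, f3] at e1
    rw [f2] at e2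
    have g1 : S.ac s (S.ac a⁻¹ (c (a * t * a⁻¹) a + c a t)) =
        S.ac a⁻¹ (S.ac (a * s * a⁻¹) (c (a * t * a⁻¹) a + c a t)) := by
      change (S.ac s * S.ac a⁻¹) _ = (S.ac a⁻¹ * S.ac (a * s * a⁻¹)) _
      rw [← map_mul, ← map_mul]
      congr 2
      group
    have g2 : c s t = S.ac a⁻¹ (S.ac a (c s t)) := by
      rw [map_inv]
      exact ((S.ac a).symm_apply_apply _).symm
    rw [hhh]
    simp only
    rw [g1, g2, ← map_add, ← map_add, ← map_add]
    congr 1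
    -- all in characteristic two
    have k1 : S.ac (a * s * a⁻¹) (c (a * t * a⁻¹) a) = c (a * s * a⁻¹) (a * t * a⁻¹) +
        c (a * (s * t) * a⁻¹) a + c (a * s * a⁻¹) (a * t) := by
      have := e1
      rw [← eq_sub_iff_add_eq] at this
      rw [← sub_eq_iff_eq_add] at e1
      rw [← e1, sub_eq_add_neg, V1_neg]
    have k2 : S.ac (a * s * a⁻¹) (c a t) = c (a * s * a⁻¹) a + c (a * s) t +
        c (a * s * a⁻¹) (a * t) := by
      rw [← sub_eq_iff_eq_add] at e2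
      rw [← e2, sub_eq_add_neg, V1_neg]
    have k3 : S.ac a (c s t) = c a s + c (a * s) t + c a (s * t) := by
      rw [← sub_eq_iff_eq_add] at e3
      rw [← e3, sub_eq_add_neg, V1_neg]
    rw [map_add, k1, k2, k3]
    have q1 := V1_add_self (c (a * s * a⁻¹) (a * t))
    have q2 := V1_add_self (c (a * s * a⁻¹) a)
    have q3 := V1_add_self (c (a * (s * t) * a⁻¹) a)
    have q4 : ∀ w : V1, (2 : ℤ) • w = 0 := fun w => by
      rw [two_smul]; exact V1_add_self w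
    generalize c (a * s * a⁻¹) (a * t * a⁻¹) = x1
    generalize c (a * (s * t) * a⁻¹) a = x2 at *
    generalize c (a * s * a⁻¹) (a * t) = x3 at *
    generalize c (a * s * a⁻¹) a = x4 at *
    generalize c (a * s) t = x5
    generalize c a (s * t) = x6
    generalize c a s = x7
    have : x4 + x7 + (x1 + x2 + x3 + (x4 + x5 + x3)) + (x2 + x6) =
        x1 + (x7 + x5 + x6) + ((x4 + x4) + (x2 + x2) + (x3 + x3)) := by abel
    rw [this, q1, q2, q3]
    simp
  refine ⟨fun s => S.ac a⁻¹ (b (a * s * a⁻¹)) + hh s, ?_, fun s hs t ht => ?_⟩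
  · refine ⟨N ⊓ M, h.inf_mem N hN M hM, fun s hs n hn hnD => ?_⟩
    have e1 : b (a * (s * n) * a⁻¹) = b (a * s * a⁻¹) := by
      rw [conj_mul]
      exact hbN _ (conj_mem_D hs) _ ((h.normal N hN).conj_mem n hn.1 _) (conj_mem_D hnD)
    have e2 : c (a * (s * n) * a⁻¹) a = c (a * s * a⁻¹) a := by
      have := hcM (a * s * a⁻¹) a (a * n * a⁻¹) ((h.normal M hM).conj_mem n hn.2 _) 1 M.one_mem
      rwa [mul_one, ← conj_mul] at this
    have e3 : c a (s * n) = c a s := by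
      have := hcM a s 1 M.one_mem n hn.2
      rwa [mul_one] at this
    simp only [hhh, e1, e2, e3]
  · have e1 := hb _ (conj_mem_D hs) _ (conj_mem_D ht)
    have e2 := hh_eq s t
    rw [e1, ← conj_mul] at e2
    have g1 : S.ac s (S.ac a⁻¹ (b (a * t * a⁻¹))) =
        S.ac a⁻¹ (S.ac (a * s * a⁻¹) (b (a * t * a⁻¹))) := by
      change (S.ac s * S.ac a⁻¹) _ = (S.ac a⁻¹ * S.ac (a * s * a⁻¹)) _
      rw [← map_mul, ← map_mul]
      congr 2
      group
    rw [map_add, map_add] at e2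
    simp only [map_add]
    rw [g1]
    have e3 : c s t = (hh s + S.ac s (hh t) + hh (s * t)) -
        (S.ac a⁻¹ (b (a * s * a⁻¹)) + S.ac a⁻¹ (S.ac (a * s * a⁻¹) (b (a * t * a⁻¹))) +
          S.ac a⁻¹ (b (a * (s * t) * a⁻¹))) := by
      rw [← e2]; abel
    rw [e3, sub_eq_add_neg, V1_neg]
    abel

end Sys

end Pool.Agent.SmN
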