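import Pool.Agent.Lib.SmN.G.Conj

/-!
# SMITH with action (SmN): `S.Ok → (S.conj g).Ok`, Selmer cocycles and the pairing do not change
-/

set_option autoImplicit false

namespace Pool.Agent.SmN

variable {G V V1 Pl : Type*} [Group G] [AddCommGroup V] [DistribMulAction G V]
  [AddCommGroup V1] [Module (ZMod 2) V1]

namespace Sys

variable {S : Sys G V V1 Pl} {g : Pl → G}

private theorem ConjOk_ac_inv (a : G) (w : V1) : S.ac a⁻¹ (S.ac a w) = w := by
  rw [map_inv]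
  exact (S.ac a).symm_apply_apply w

private theorem ConjOk_ac_mul (a : G) (w : V1) : S.ac a (S.ac a⁻¹ w) = w := by
  rw [map_inv]
  exact (S.ac a).apply_symm_apply w

private theorem ConjOk_ac_conj (a s : G) (w : V1) :
    S.ac (a * s * a⁻¹) w = w ↔ S.ac s (S.ac a⁻¹ w) = S.ac a⁻¹ w := by
  have e : S.ac (a * s * a⁻¹) w = S.ac a (S.ac s (S.ac a⁻¹ w)) := by
    rw [map_mul, map_mul]; rfl
  rw [e]
  constructor
  · intro h
    have := congrArg (S.ac a⁻¹) h
    rwa [ConjOk_ac_inv] at this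
  · intro h
    rw [h, ConjOk_ac_mul]

/-- The whole list of properties for the conjugate system. -/
theorem Ok.conj (h : S.Ok) (g : Pl → G) : (S.conj g).Ok where
  top_mem := h.top_mem
  inf_mem := h.inf_mem
  normal := h.normal
  phi_mem := fun v => conj_mem_D (h.phi_mem v)
  sg_mem := fun v => conj_mem_D (h.sg_mem v)
  gen := fun v N hN s hs => by
    obtain ⟨s', hs', rfl⟩ := conj_exists hs
    obtain ⟨t, ht, htN⟩ := h.gen v N hN s' hs'
    refine ⟨g v * t * (g v)⁻¹, ?_, ?_⟩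
    · have h1 : (Subgroup.closure {S.phi v, S.sg v}).map (MulAut.conj (g v)).toMonoidHom ≤
          Subgroup.closure {(S.conj g).phi v, (S.conj g).sg v} := by
        rw [MonoidHom.map_closure, Subgroup.closure_le]
        rintro x ⟨y, (rfl | rfl), rfl⟩
        · exact Subgroup.subset_closure (Or.inl rfl)
        · exact Subgroup.subset_closure (Or.inr rfl)
      exact h1 ⟨t, ht, rfl⟩
    · have e : (g v * t * (g v)⁻¹)⁻¹ * (g v * s' * (g v)⁻¹) = g v * (t⁻¹ * s') * (g v)⁻¹ := by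
        group
      rw [e]
      exact (h.normal N hN).conj_mem _ htN _
  frob := fun v N hN => by
    obtain ⟨q, hq, hqN⟩ := h.frob v N hN
    refine ⟨q, hq, ?_⟩
    change ((g v * S.sg v * (g v)⁻¹) ^ q)⁻¹ *
      ((g v * S.phi v * (g v)⁻¹) * (g v * S.sg v * (g v)⁻¹) * (g v * S.phi v * (g v)⁻¹)⁻¹) ∈ N
    rw [conj_pow]
    have e : (g v * S.sg v ^ q * (g v)⁻¹)⁻¹ *
      ((g v * S.phi v * (g v)⁻¹) * (g v * S.sg v * (g v)⁻¹) * (g v * S.phi v * (g v)⁻¹)⁻¹) =
      g v * ((S.sg v ^ q)⁻¹ * (S.phi v * S.sg v * (S.phi v)⁻¹)) * (g v)⁻¹ := by group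
    rw [e]
    exact (h.normal N hN).conj_mem _ hqN _
  fin1 := h.fin1
  e_alt := h.e_alt
  e_nondeg := h.e_nondeg
  e_inv := h.e_inv
  iota_inj := h.iota_inj
  iota_range := h.iota_range
  iota_ac := h.iota_ac
  half := h.half
  tors := h.tors
  act_fin := h.act_fin
  unr := fun N hN => by
    refine (h.unr N hN).subset fun v hv hm => hv ?_
    exact (h.normal N hN).conj_mem _ hm _
  good_fin := h.good_fin
  good_triv := fun v hv Q => by
    change (g v * S.sg v * (g v)⁻¹) • Q = Q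
    rw [mul_smul, mul_smul, h.good_triv v hv, smul_inv_smul]
  hasse := fun c hTF hc hl => h.hasse c hTF hc fun v => hasse_conj h hTF hc v (hl v)
  sy_comm := fun v x hx y hy => by
    rw [conj_sy, conj_sy]
    exact h.sy_comm v _ ((mem_conj_CP h).1 hx) _ ((mem_conj_CP h).1 hy)
  sy_cob := fun v x hx z => by
    rw [conj_sy, conj_cob]
    exact h.sy_cob v _ ((mem_conj_CP h).1 hx) _
  sy_unr := fun v hv x hx y hy hx1 => by
    rw [conj_sy, h.sy_unr v hv _ ((mem_conj_CP h).1 hx) _ ((mem_conj_CP h).1 hy)]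
    · exact h.e_inv _ _ _
    · change S.ac (g v)⁻¹ x.1 = 0
      rw [hx1, map_zero]
  sy_split := fun v hv hs x y => by
    rw [conj_sy, h.sy_split v hv (ac_conj_eq_one.1 hs)]
    simp only [ac2_apply, h.e_inv]
    rfl
  recip := fun c d hc hd => by
    rw [finsum_congr (conj_sy_loc h hc hd)]
    exact h.recip c d hc hd
  corr := fun w hw hfix => by
    obtain ⟨c, hc, hcv⟩ := h.corr (fun v => S.ac (g v)⁻¹ (w v)) (by
      refine hw.subset fun v hv h0 => hv ?_
      rw [h0, map_zero]) (fun v hv => (ConjOk_ac_conj _ _ _).1 (hfix v hv))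
    refine ⟨c, hc, fun v hv => ?_⟩
    change c (g v * S.sg v * (g v)⁻¹) = w v
    rw [coc_conj hc.2, hcv v hv, ac_sg h hv]
    change S.ac (g v) (S.ac (g v)⁻¹ (w v) + (S.ac (g v)⁻¹ (c (g v)) - S.ac (g v)⁻¹ (c (g v)))) = w v
    rw [sub_self, add_zero, ConjOk_ac_mul]
  dual := fun W hCP hcob hcard hiso hexc xi hxiCP hxi hsum => by
    -- transport back
    let W0 : Pl → AddSubgroup (V1 × V1) := fun v => (W v).comap (S.ac2 (g v)).toAddMonoidHom
    have hW0 : ∀ v x, x ∈ W0 v ↔ S.ac2 (g v) x ∈ W v := fun v x => Iff.rfl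
    have hfst : ∀ v (x : V1 × V1), (S.ac2 (g v) x).1 = 0 ↔ x.1 = 0 := fun v x => by
      change S.ac (g v) x.1 = 0 ↔ x.1 = 0
      exact (S.ac (g v)).map_eq_zero_iff
    have cobeq : ∀ v z, (S.conj g).cob v (S.ac (g v) z) = S.ac2 (g v) (S.cob v z) := by
      intro v z
      rw [← ac2_mul_inv (S := S) (g v) ((S.conj g).cob v _), conj_cob, ConjOk_ac_inv]
    have a1 : ∀ v, (W0 v : Set (V1 × V1)) ⊆ S.CP v := by
      intro v x hx
      have := (mem_conj_CP h).1 (hCP v ((hW0 v x).1 hx))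
      rwa [ac2_inv_mul] at this
    have a2 : ∀ v z, S.cob v z ∈ W0 v := by
      intro v z
      rw [hW0, ← cobeq]
      exact hcob v _
    have a3 : ∀ v, Nat.card (W0 v) = Nat.card V1 := by
      intro v
      rw [← hcard v]
      exact Nat.card_congr ⟨fun x => ⟨S.ac2 (g v) x.1, x.2⟩,
        fun x => ⟨S.ac2 (g v)⁻¹ x.1, by rw [hW0, ac2_mul_inv]; exact x.2⟩,
        fun x => Subtype.ext (ac2_inv_mul _ _), fun x => Subtype.ext (ac2_mul_inv _ _)⟩
    have a4 : ∀ v, ∀ x ∈ W0 v, ∀ y ∈ W0 v, S.sy v x y = 0 := by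
      intro v x hx y hy
      have := hiso v _ ((hW0 v x).1 hx) _ ((hW0 v y).1 hy)
      rwa [conj_sy, ac2_inv_mul, ac2_inv_mul] at this
    have a5 : {v | ¬ ∀ x : V1 × V1, x ∈ W0 v ↔ x.1 = 0}.Finite := by
      refine hexc.subset fun v hv hg => hv fun x => ?_
      rw [hW0, hg, hfst]
    have a6 : ∀ v, S.ac2 (g v)⁻¹ (xi v) ∈ S.CP v := fun v => (mem_conj_CP h).1 (hxiCP v)
    have a7 : {v | S.ac2 (g v)⁻¹ (xi v) ∉ W0 v}.Finite := by
      refine hxi.subset fun v hv hm => hv ?_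
      rw [hW0, ac2_mul_inv]
      exact hm
    have a8 : ∀ b : G → V1, S.CocG b → (∀ v, S.loc v b ∈ W0 v) →
        ∑ᶠ v, S.sy v (S.ac2 (g v)⁻¹ (xi v)) (S.loc v b) = 0 := by
      intro b hb hbW
      have hbW' : ∀ v, (S.conj g).loc v b ∈ W v := by
        intro v
        rw [loc_conj hb, map_add]
        refine (W v).add_mem ((hW0 v _).1 (hbW v)) ?_
        rw [← cobeq]
        exact hcob v _
      rw [← hsum b hb hbW']
      apply finsum_congr
      intro v
      have := conj_sy_right (g := g) h ((mem_conj_CP h).1 (hxiCP v)) hb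
      rw [ac2_mul_inv] at this
      exact this.symm
    obtain ⟨om, hom, homv⟩ := h.dual W0 a1 a2 a3 a4 a5 (fun v => S.ac2 (g v)⁻¹ (xi v)) a6 a7 a8
    refine ⟨om, hom, fun v => ?_⟩
    have h1 := homv v
    rw [hW0, map_sub, ac2_mul_inv] at h1
    have h2 := hcob v (S.ac (g v) (S.ac (g v)⁻¹ (om (g v))))
    have e : (S.conj g).loc v om - xi v = (S.ac2 (g v) (S.loc v om) - xi v) +
        (S.conj g).cob v (S.ac (g v) (S.ac (g v)⁻¹ (om (g v)))) := by
      rw [loc_conj hom, cobeq, map_add]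
      abel
    rw [e]
    exact (W v).add_mem h1 h2
  fin_inv := fun chi hchi v => by
    have := (h.fin_inv chi hchi v).image (fun Q => tw chi (g v) Q)
    refine this.subset fun Q hQ => ?_
    refine ⟨tw chi (g v)⁻¹ Q, fun s hs => ?_, tw_inv_tw hchi.2 Q (g v)⟩
    have e1 := hQ _ (conj_mem_D hs)
    have e2 := dl_conj hchi.2 (tw chi (g v)⁻¹ Q) (g v) s
    rw [tw_inv_tw hchi.2, e1] at e2
    rw [← tw_tw_inv hchi.2 (dl chi (tw chi (g v)⁻¹ Q) s) (g v), ← e2, tw_zero]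
  isot := fun chi hchi v x hx y hy => by
    rw [conj_sy]
    exact h.isot chi hchi v _ ((mem_conj_Wl h hchi).1 hx) _ ((mem_conj_Wl h hchi).1 hy)

/-- The value of a twisted cocycle at a conjugate element. -/
theorem twcoc_conj {chi : G → ZMod 2} (hchi : ∀ s t, chi (s * t) = chi s + chi t) {Psi : G → V}
    (hP : ∀ s t, Psi (s * t) = Psi s + tw chi s (Psi t)) (a s : G) :
    Psi (a * s * a⁻¹) = tw chi a (Psi s) - dl chi (Psi a) (a * s * a⁻¹) := by
  have h1 : Psi a⁻¹ = -tw chi a⁻¹ (Psi a) := by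
    have h2 := hP a⁻¹ a
    rw [inv_mul_cancel, coc_one hchi hP] at h2
    exact eq_neg_of_add_eq_zero_left h2.symm
  rw [hP, hP, h1, tw_neg, ← tw_mul hchi, dl]
  abel

/-- The local condition on global cocycles does not change. -/
theorem conj_Zv {chi : G → ZMod 2} (hchi : S.HomG chi) {Psi : G → V}
    (hP : ∀ s t, Psi (s * t) = Psi s + tw chi s (Psi t)) (v : Pl) :
    (S.conj g).Zv chi v Psi ↔ S.Zv chi v Psi := by
  constructor
  · rintro ⟨Q, hQ⟩
    refine ⟨tw chi (g v)⁻¹ (Q + Psi (g v)), fun s hs => ?_⟩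
    have e1 := hQ _ (conj_mem_D hs)
    have e2 := twcoc_conj hchi.2 hP (g v) s
    have e3 := dl_conj hchi.2 (tw chi (g v)⁻¹ (Q + Psi (g v))) (g v) s
    rw [tw_inv_tw hchi.2, dl_add, ← e1] at e3
    rw [← tw_tw_inv hchi.2 (Psi s) (g v),
      ← tw_tw_inv hchi.2 (dl chi (tw chi (g v)⁻¹ (Q + Psi (g v))) s) (g v), ← e3, e2,
      sub_add_cancel]
  · rintro ⟨Q, hQ⟩
    refine ⟨tw chi (g v) Q - Psi (g v), fun s hs => ?_⟩
    obtain ⟨t, ht, rfl⟩ := conj_exists hs
    rw [twcoc_conj hchi.2 hP, dl_sub, dl_conj hchi.2, hQ t ht]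

theorem conj_isSel {chi : G → ZMod 2} (hchi : S.HomG chi) {j : ℕ} {Psi : G → V} :
    (S.conj g).IsSel chi j Psi ↔ S.IsSel chi j Psi :=
  ⟨fun h => ⟨h.tf, h.coc, h.lev, fun v => (conj_Zv hchi h.coc v).1 (h.loc v)⟩,
    fun h => ⟨h.tf, h.coc, h.lev, fun v => (conj_Zv hchi h.coc v).2 (h.loc v)⟩⟩

theorem conj_isSel1 (h : S.Ok) {chi : G → ZMod 2} (hchi : S.HomG chi) {b : G → V1} :
    (S.conj g).IsSel1 chi b ↔ S.IsSel1 chi b := by
  rw [isSel1_iff (h.conj g) hchi, isSel1_iff h hchi]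
  exact conj_isSel hchi

/-- The Cassels-Tate pairing does not change. -/
theorem conj_CT (h : S.Ok) {chi : G → ZMod 2} (hchi : S.HomG chi) {j : ℕ} {Psi : G → V}
    (hP : S.IsSel chi j Psi) {b : G → V1} (hb : S.IsSel1 chi b) :
    (S.conj g).CT chi Psi b = S.CT chi Psi b := by
  obtain ⟨hat, Q, hd⟩ := exists_liftData h hchi hP
  have hd' : (S.conj g).LiftData chi Psi hat (fun v => tw chi (g v) (Q v) - hat (g v)) := by
    refine ⟨hd.tf, hd.coc, hd.two, fun v s hs => ?_⟩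
    obtain ⟨t, ht, rfl⟩ := conj_exists hs
    rw [twcoc_conj hchi.2 hP.coc, hd.loc v t ht, dl_sub, dl_conj hchi.2, smul_sub, tw_nsmul,
      ← dl_nsmul _ 2 (hat (g v)), hd.two]
  have key : ∀ v, ∀ s, hat (g v * s * (g v)⁻¹) -
      dl chi (tw chi (g v) (Q v) - hat (g v)) (g v * s * (g v)⁻¹) =
      tw chi (g v) (hat s - dl chi (Q v) s) := by
    intro v s
    rw [twcoc_conj hchi.2 hd.coc, dl_sub, dl_conj hchi.2, tw_sub]
    abel
  have hxi : ∀ v, (S.conj g).xi chi hat (fun v => tw chi (g v) (Q v) - hat (g v)) v =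
      S.ac2 (g v) (S.xi chi hat Q v) := by
    intro v
    refine Prod.ext ?_ ?_
    · change S.un (hat (g v * S.sg v * (g v)⁻¹) -
        dl chi (tw chi (g v) (Q v) - hat (g v)) (g v * S.sg v * (g v)⁻¹)) = S.ac (g v) (S.un _)
      rw [key, un_tw h _ _ (hd.two_sub v (h.sg_mem v))]
    · change S.un (hat (g v * S.phi v * (g v)⁻¹) -
        dl chi (tw chi (g v) (Q v) - hat (g v)) (g v * S.phi v * (g v)⁻¹)) = S.ac (g v) (S.un _)
      rw [key, un_tw h _ _ (hd.two_sub v (h.phi_mem v))]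
  rw [CT_eq (h.conj g) hchi hd' ((conj_isSel1 h hchi).2 hb), CT_eq h hchi hd hb]
  apply finsum_congr
  intro v
  rw [hxi]
  exact conj_sy_right h (hd.xi_CP h hchi v) hb.1

end Sys

end Pool.Agent.SmN
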