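import Pool.Agent.Lib.SmN.G.Tw

/-!
# SMITH block G, module Gen: `D v` is topologically generated by `sg v` and `phi v`
-/

set_option autoImplicit false

namespace Pool.Agent.SmN

variable {G V V1 Pl : Type*} [Group G] [AddCommGroup V] [DistribMulAction G V]
  [AddCommGroup V1] [Module (ZMod 2) V1]

namespace Sys

variable {S : Sys G V V1 Pl}

/-- A 2-finite twisted cocycle on `D v` which vanishes at `phi v` and `sg v` is zero. -/
theorem cocD_zero (h : S.Ok) {chi : G → ZMod 2} (hchi : S.HomG chi) (v : Pl) {c : G → V}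
    (hc : S.CocD chi v c) (h1 : c (S.sg v) = 0) (h2 : c (S.phi v) = 0) :
    ∀ s ∈ S.D v, c s = 0 := by
  have hcl : Subgroup.closure {S.phi v, S.sg v} ≤ S.D v := by
    rw [Subgroup.closure_le]
    rintro x (rfl | rfl)
    · exact h.phi_mem v
    · exact h.sg_mem v
  have hone : c 1 = 0 := by
    have := hc.coc 1 (one_mem _) 1 (one_mem _)
    rw [one_mul, tw_one hchi.2] at this
    exact left_eq_add.mp this
  have hz : ∀ x ∈ Subgroup.closure {S.phi v, S.sg v}, c x = 0 := by
    intro x hx
    refine Subgroup.closure_induction (p := fun x _ => c x = 0) ?_ hone ?_ ?_ hx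
    · rintro y (rfl | rfl)
      · exact h2
      · exact h1
    · intro a b ha hb ha' hb'
      rw [hc.coc a (hcl ha) b (hcl hb), ha', hb', tw_zero, add_zero]
    · intro a ha ha'
      have := hc.coc a⁻¹ ((S.D v).inv_mem (hcl ha)) a (hcl ha)
      rw [inv_mul_cancel, hone, ha', tw_zero, add_zero] at this
      exact this.symm
  intro s hs
  obtain ⟨N, hN, hNc⟩ := hc.tf
  obtain ⟨t, ht, hts⟩ := h.gen v N hN s hs
  have := hNc t (hcl ht) (t⁻¹ * s) hts ((S.D v).mul_mem ((S.D v).inv_mem (hcl ht)) hs)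
  rw [mul_inv_cancel_left] at this
  rw [this, hz t ht]

/-- A 2-finite twisted cocycle on `D v` is determined by its values at `sg v` and `phi v`. -/
theorem cocD_ext (h : S.Ok) {chi : G → ZMod 2} (hchi : S.HomG chi) (v : Pl) {c c' : G → V}
    (hc : S.CocD chi v c) (hc' : S.CocD chi v c') (h1 : c (S.sg v) = c' (S.sg v))
    (h2 : c (S.phi v) = c' (S.phi v)) : ∀ s ∈ S.D v, c s = c' s := by
  have hd : S.CocD chi v (fun s => c s - c' s) := by
    refine ⟨TFOn.comp₂ h hc.tf hc'.tf (fun a b => a - b), fun s hs t ht => ?_⟩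
    simp only [hc.coc s hs t ht, hc'.coc s hs t ht, tw_sub]
    abel
  intro s hs
  have := cocD_zero h hchi v hd (by simp [h1]) (by simp [h2]) s hs
  exact sub_eq_zero.mp this

end Sys

end Pool.Agent.SmN
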