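import Pool.Agent.Lib.SmN.Sys

/-!
# SMITH block G, module Tw: algebra of the twisted action, 2-finite functions
-/

set_option autoImplicit false

namespace Pool.Agent.SmN

variable {G V V1 Pl : Type*} [Group G] [AddCommGroup V] [DistribMulAction G V]
  [AddCommGroup V1] [Module (ZMod 2) V1]

theorem sgn_add (a b : ZMod 2) : sgn (a + b) = sgn a * sgn b := by
  revert a b; decide

theorem sgn_zero : sgn 0 = 1 := rfl

theorem sgn_mul_self (a : ZMod 2) : sgn a * sgn a = 1 := by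
  revert a; decide

theorem sgn_eq (a : ZMod 2) : sgn a = 1 ∨ sgn a = -1 := by
  revert a; decide

section tw

variable (chi : G → ZMod 2)

theorem tw_add (s : G) (Q R : V) : tw chi s (Q + R) = tw chi s Q + tw chi s R := by
  simp [tw, smul_add]

theorem tw_zero (s : G) : tw chi s (0 : V) = 0 := by simp [tw]

theorem tw_neg (s : G) (Q : V) : tw chi s (-Q) = -tw chi s Q := by simp [tw]

theorem tw_sub (s : G) (Q R : V) : tw chi s (Q - R) = tw chi s Q - tw chi s R := by
  rw [sub_eq_add_neg, tw_add, tw_neg, ← sub_eq_add_neg]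

theorem tw_nsmul (s : G) (n : ℕ) (Q : V) : tw chi s (n • Q) = n • tw chi s Q := by
  induction n with
  | zero => simp [tw_zero]
  | succ n ih => rw [succ_nsmul, tw_add, ih, succ_nsmul]

theorem tw_zsmul (s : G) (n : ℤ) (Q : V) : tw chi s (n • Q) = n • tw chi s Q := by
  cases n with
  | ofNat n => simpa using tw_nsmul chi s n Q
  | negSucc n => rw [negSucc_zsmul, tw_neg, tw_nsmul, negSucc_zsmul]

theorem tw_of_zero {s : G} (h : chi s = 0) (Q : V) : tw chi s Q = s • Q := by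
  simp [tw, h, sgn]

theorem tw_of_one {s : G} (h : chi s = 1) (Q : V) : tw chi s Q = -(s • Q) := by
  simp [tw, h, sgn]

theorem chi_one {chi : G → ZMod 2} (h : ∀ s t, chi (s * t) = chi s + chi t) : chi 1 = 0 := by
  have := h 1 1
  rw [one_mul] at this
  exact left_eq_add.mp this

theorem tw_one {chi : G → ZMod 2} (h : ∀ s t, chi (s * t) = chi s + chi t) (Q : V) :
    tw chi 1 Q = Q := by
  rw [tw_of_zero chi (chi_one h), one_smul]

theorem tw_mul {chi : G → ZMod 2} (h : ∀ s t, chi (s * t) = chi s + chi t) (s t : G) (Q : V) :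
    tw chi (s * t) Q = tw chi s (tw chi t Q) := by
  simp only [tw, h, sgn_add, mul_smul]
  rcases sgn_eq (chi t) with h' | h' <;> simp [h']

/-- Two twists differ by a sign. -/
theorem tw_add_chi (chi th : G → ZMod 2) (s : G) (Q : V) :
    tw (chi + th) s Q = sgn (th s) • tw chi s Q := by
  simp only [tw, Pi.add_apply, sgn_add, mul_smul]
  rw [smul_comm]

/-- `(-1)^th = 1 - 2 th`. -/
theorem sgn_eq_sub (a : ZMod 2) : sgn a = 1 - 2 * (a.val : ℤ) := by
  revert a; decide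

theorem dl_add (Q R : V) (s : G) : dl chi (Q + R) s = dl chi Q s + dl chi R s := by
  simp only [dl, tw_add]; abel

theorem dl_zero (s : G) : dl chi (0 : V) s = 0 := by simp [dl, tw_zero]

theorem dl_neg (Q : V) (s : G) : dl chi (-Q) s = -dl chi Q s := by
  simp only [dl, tw_neg]; abel

theorem dl_sub (Q R : V) (s : G) : dl chi (Q - R) s = dl chi Q s - dl chi R s := by
  simp only [dl, tw_sub]; abel

theorem dl_nsmul (n : ℕ) (Q : V) (s : G) : dl chi (n • Q) s = n • dl chi Q s := by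
  simp only [dl, tw_nsmul, smul_sub]

theorem dl_one {chi : G → ZMod 2} (h : ∀ s t, chi (s * t) = chi s + chi t) (Q : V) :
    dl chi Q 1 = 0 := by
  simp [dl, tw_one h]

/-- The coboundary is a cocycle. -/
theorem dl_mul {chi : G → ZMod 2} (h : ∀ s t, chi (s * t) = chi s + chi t) (Q : V) (s t : G) :
    dl chi Q (s * t) = dl chi Q s + tw chi s (dl chi Q t) := by
  simp only [dl, tw_mul h, tw_sub]; abel

/-- A twisted cocycle vanishes at `1`. -/
theorem coc_one {chi : G → ZMod 2} (hc : ∀ s t, chi (s * t) = chi s + chi t) {Psi : G → V}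
    (h : ∀ s t, Psi (s * t) = Psi s + tw chi s (Psi t)) : Psi 1 = 0 := by
  have := h 1 1
  rw [one_mul, tw_one hc] at this
  exact left_eq_add.mp this

end tw

theorem V1_add_self (w : V1) : w + w = 0 := by
  have h : ((1 : ZMod 2) + 1) • w = 0 := by
    rw [show (1 : ZMod 2) + 1 = 0 from rfl, zero_smul]
  rwa [add_smul, one_smul] at h

theorem V1_neg (w : V1) : -w = w := neg_eq_of_add_eq_zero_left (V1_add_self w)

theorem V1_two (w : V1) : (2 : ℕ) • w = 0 := by rw [two_nsmul]; exact V1_add_self w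

theorem e_comm {e : V1 →ₗ[ZMod 2] V1 →ₗ[ZMod 2] ZMod 2} (halt : ∀ w, e w w = 0) (x y : V1) :
    e x y = e y x := by
  have h := halt (x + y)
  simp only [map_add, LinearMap.add_apply, halt, zero_add, add_zero] at h
  have : ∀ a b : ZMod 2, b + a = 0 → a = b := by decide
  exact this _ _ h

namespace Sys

variable {S : Sys G V V1 Pl}

theorem two_iota (S : Sys G V V1 Pl) (w : V1) : (2 : ℕ) • S.iota w = 0 := by
  rw [← map_nsmul, V1_two, map_zero]

theorem neg_iota (S : Sys G V V1 Pl) (w : V1) : -S.iota w = S.iota w := by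
  rw [← map_neg, V1_neg]

/-- The twisted action on `V1`. -/
theorem tw_iota (h : S.Ok) (chi : G → ZMod 2) (s : G) (w : V1) :
    tw chi s (S.iota w) = S.iota (S.ac s w) := by
  simp only [tw, h.iota_ac]
  rcases sgn_eq (chi s) with h' | h'
  · simp [h']
  · rw [h', neg_smul, one_smul, neg_iota]

theorem dl_iota (h : S.Ok) (chi : G → ZMod 2) (s : G) (w : V1) :
    dl chi (S.iota w) s = S.iota (S.ac s w - w) := by
  rw [dl, tw_iota h, map_sub]

theorem two_dl_iota (h : S.Ok) (chi : G → ZMod 2) (s : G) (w : V1) :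
    (2 : ℕ) • dl chi (S.iota w) s = 0 := by
  rw [dl_iota h, two_iota]

theorem TF.comp {α β : Type*} {f : G → α} (hf : S.TF f) (g : α → β) : S.TF (fun s => g (f s)) := by
  obtain ⟨N, hN, h⟩ := hf
  exact ⟨N, hN, fun s n hn => by simp only [h s n hn]⟩

theorem TF.comp₂ {α β γ : Type*} {f : G → α} {f' : G → β} (h : S.Ok) (hf : S.TF f)
    (hf' : S.TF f') (g : α → β → γ) : S.TF (fun s => g (f s) (f' s)) := by
  obtain ⟨N, hN, h1⟩ := hf
  obtain ⟨N', hN', h2⟩ := hf'
  exact ⟨N ⊓ N', h.inf_mem N hN N' hN', fun s n hn => by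
    simp only [h1 s n hn.1, h2 s n hn.2]⟩

theorem TF_const (h : S.Ok) {α : Type*} (a : α) : S.TF (fun _ => a) :=
  ⟨⊤, h.top_mem, fun _ _ _ => rfl⟩

theorem TF.on {α : Type*} {f : G → α} (hf : S.TF f) (H : Subgroup G) : S.TFOn H f := by
  obtain ⟨N, hN, h⟩ := hf
  exact ⟨N, hN, fun s _ n hn _ => h s n hn⟩

theorem TFOn.comp {α β : Type*} {H : Subgroup G} {f : G → α} (hf : S.TFOn H f) (g : α → β) :
    S.TFOn H (fun s => g (f s)) := by
  obtain ⟨N, hN, h⟩ := hf
  exact ⟨N, hN, fun s hs n hn hnH => by simp only [h s hs n hn hnH]⟩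

theorem TFOn.comp₂ {α β γ : Type*} {H : Subgroup G} {f : G → α} {f' : G → β} (h : S.Ok)
    (hf : S.TFOn H f) (hf' : S.TFOn H f') (g : α → β → γ) :
    S.TFOn H (fun s => g (f s) (f' s)) := by
  obtain ⟨N, hN, h1⟩ := hf
  obtain ⟨N', hN', h2⟩ := hf'
  exact ⟨N ⊓ N', h.inf_mem N hN N' hN', fun s hs n hn hnH => by
    simp only [h1 s hs n hn.1 hnH, h2 s hs n hn.2 hnH]⟩

theorem TFOn.congr {α : Type*} {H : Subgroup G} {f f' : G → α} (hf : S.TFOn H f)
    (he : ∀ s ∈ H, f s = f' s) : S.TFOn H f' := by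
  obtain ⟨N, hN, h1⟩ := hf
  exact ⟨N, hN, fun s hs n hn hnH => by
    rw [← he s hs, ← he (s * n) (H.mul_mem hs hnH), h1 s hs n hn hnH]⟩

/-- The twisted action on `V[2^j]` is 2-finite. -/
theorem act_tf (h : S.Ok) {chi : G → ZMod 2} (hchi : S.HomG chi) (j : ℕ) :
    ∃ N ∈ S.NN, ∀ s, ∀ n ∈ N, ∀ Q : V, (2 : ℕ) ^ j • Q = 0 → tw chi (s * n) Q = tw chi s Q := by
  obtain ⟨N, hN, h1⟩ := hchi.1
  obtain ⟨N', hN', h2⟩ := h.act_fin j
  refine ⟨N ⊓ N', h.inf_mem N hN N' hN', fun s n hn Q hQ => ?_⟩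
  simp only [tw]
  rw [h1 s n hn.1, mul_smul, h2 n hn.2 Q hQ]

theorem dl_tf (h : S.Ok) {chi : G → ZMod 2} (hchi : S.HomG chi) (Q : V) : S.TF (dl chi Q) := by
  obtain ⟨j, hj⟩ := h.tors Q
  obtain ⟨N, hN, h1⟩ := act_tf h hchi j
  exact ⟨N, hN, fun s n hn => by rw [dl, dl, h1 s n hn Q hj]⟩

theorem dl_cocD (h : S.Ok) {chi : G → ZMod 2} (hchi : S.HomG chi) (Q : V) (v : Pl) :
    S.CocD chi v (dl chi Q) :=
  ⟨(dl_tf h hchi Q).on _, fun s _ t _ => dl_mul hchi.2 Q s t⟩

/-- `V[2]`-valued means `V1`-valued. -/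
theorem exists_V1 (h : S.Ok) {c : G → V} (hc : ∀ s, (2 : ℕ) • c s = 0) :
    ∃ c1 : G → V1, ∀ s, S.iota (c1 s) = c s :=
  ⟨fun s => (h.iota_range (c s) (hc s)).choose, fun s => (h.iota_range (c s) (hc s)).choose_spec⟩

/-- The same on a subgroup. -/
theorem exists_V1_on (h : S.Ok) {H : Subgroup G} {c : G → V} (hc : ∀ s ∈ H, (2 : ℕ) • c s = 0) :
    ∃ c1 : G → V1, ∀ s ∈ H, S.iota (c1 s) = c s := by
  classical
  refine ⟨fun s => if hs : s ∈ H then (h.iota_range (c s) (hc s hs)).choose else 0, fun s hs => ?_⟩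
  simp only [hs, dite_true]
  exact (h.iota_range (c s) (hc s hs)).choose_spec

end Sys

end Pool.Agent.SmN
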